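import Pool.Agent.H168R2.UTDDefs

namespace Pool.Agent.H168R2.UTD

variable {V : Type*} {G : SimpleGraph V}

section basics

variable [Fintype V]

lemma bddAbove_dom (G : SimpleGraph V) :
    BddAbove {n | ∃ S : Finset V, Minimal (IsDom G) S ∧ S.card = n} := by
  refine ⟨Fintype.card V, ?_⟩
  rintro n ⟨S, _, rfl⟩
  exact Finset.card_le_univ S

lemma bddAbove_tdom (G : SimpleGraph V) :
    BddAbove {n | ∃ S : Finset V, Minimal (IsTDom G) S ∧ S.card = n} := by
  refine ⟨Fintype.card V, ?_⟩
  rintro n ⟨S, _, rfl⟩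
  exact Finset.card_le_univ S

lemma le_upperDom {S : Finset V} (h : Minimal (IsDom G) S) : S.card ≤ upperDom G :=
  le_csSup (bddAbove_dom G) ⟨S, h, rfl⟩

lemma le_upperTDom {S : Finset V} (h : Minimal (IsTDom G) S) : S.card ≤ upperTDom G :=
  le_csSup (bddAbove_tdom G) ⟨S, h, rfl⟩

lemma exists_minimal_sub {P : Finset V → Prop} {S : Finset V} (h : P S) :
    ∃ T ⊆ S, Minimal P T := by
  classical
  obtain ⟨T, hT, hmin⟩ := Finset.exists_minimal (s := S.powerset.filter P)
    ⟨S, by simp [h]⟩
  simp only [Finset.mem_filter, Finset.mem_powerset] at hT hmin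
  refine ⟨T, hT.1, hT.2, ?_⟩
  intro U hU hUT
  exact hmin ⟨hUT.trans hT.1, hU⟩ hUT

lemma exists_upperTDom (hG : ∀ v, ∃ u, G.Adj v u) :
    ∃ S : Finset V, Minimal (IsTDom G) S ∧ S.card = upperTDom G := by
  classical
  have hne : {n | ∃ S : Finset V, Minimal (IsTDom G) S ∧ S.card = n}.Nonempty := by
    obtain ⟨T, _, hT⟩ := exists_minimal_sub (P := IsTDom G) (S := (Finset.univ : Finset V))
      (by intro v; obtain ⟨u, hu⟩ := hG v; exact ⟨u, Finset.mem_univ _, hu⟩)
    exact ⟨_, T, hT, rfl⟩
  exact Nat.sSup_mem hne (bddAbove_tdom G)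

/-- An independent set has at most `Γ(G)` vertices. -/
lemma indep_card_le {X : Finset V} (hX : ∀ a ∈ X, ∀ b ∈ X, ¬ G.Adj a b) :
    X.card ≤ upperDom G := by
  classical
  -- extend to a maximal independent set
  obtain ⟨Y, hY, hmax⟩ := Finset.exists_maximal
    (s := (Finset.univ : Finset (Finset V)).filter
      (fun Y => X ⊆ Y ∧ ∀ a ∈ Y, ∀ b ∈ Y, ¬ G.Adj a b))
    ⟨X, by simp; exact hX⟩
  simp only [Finset.mem_filter, Finset.mem_univ, true_and] at hY hmax
  have hdom : IsDom G Y := by
    intro v hv
    by_contra hcon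
    push Not at hcon
    have h1 : insert v Y ≤ Y := by
      apply hmax
      · refine ⟨hY.1.trans (Finset.subset_insert _ _), ?_⟩
        intro a ha b hb
        rw [Finset.mem_insert] at ha hb
        rcases ha with rfl | ha <;> rcases hb with rfl | hb
        · exact G.loopless.irrefl _
        · exact hcon b hb
        · intro h; exact hcon a ha h.symm
        · exact hY.2 a ha b hb
      · exact Finset.subset_insert _ _
    exact hv (h1 (Finset.mem_insert_self _ _))
  have hmin : Minimal (IsDom G) Y := by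
    refine ⟨hdom, ?_⟩
    intro T hT hTY v hv
    by_contra hvT
    obtain ⟨u, hu, huv⟩ := hT v hvT
    exact hY.2 v hv u (hTY hu) huv
  exact (Finset.card_le_card hY.1).trans (le_upperDom hmin)

/-- private neighbours from minimality -/
lemma exists_priv {S : Finset V} (hS : Minimal (IsTDom G) S) {v : V} (hv : v ∈ S) :
    ∃ w, G.Adj v w ∧ ∀ u ∈ S, G.Adj u w → u = v := by
  classical
  by_contra hcon
  push Not at hcon
  have h1 : IsTDom G (S.erase v) := by
    intro w
    by_cases hvw : G.Adj v w
    · obtain ⟨u, hu, huw, hne⟩ := hcon w hvw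
      exact ⟨u, Finset.mem_erase.2 ⟨hne, hu⟩, huw.symm⟩
    · obtain ⟨u, hu, huw⟩ := hS.1 w
      refine ⟨u, Finset.mem_erase.2 ⟨?_, hu⟩, huw⟩
      rintro rfl
      exact hvw huw.symm
  have h2 := hS.2 h1 (Finset.erase_subset _ _) hv
  simp at h2

/-- Key structure: for a minimal total dominating set `S` and a dominating `D ⊆ S` there is an
injection from `S \ D` to `D` such that the only neighbour in `S` of the image of `u` is `u`. -/
lemma exists_inj {S D : Finset V} (hS : Minimal (IsTDom G) S) (hD : IsDom G D) (hDS : D ⊆ S) :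
    ∀ u ∈ S, u ∉ D → ∃ w ∈ D, G.Adj u w ∧ ∀ x ∈ S, G.Adj x w → x = u := by
  intro u hu huD
  obtain ⟨w, huw, hpriv⟩ := exists_priv hS hu
  refine ⟨w, ?_, huw, hpriv⟩
  by_contra hwD
  obtain ⟨x, hx, hwx⟩ := hD w hwD
  have := hpriv x (hDS hx) hwx.symm
  subst this
  exact huD hx

lemma tdom_dom {S : Finset V} (h : IsTDom G S) : IsDom G S := fun v _ => h v

lemma card_le_two_mul {S D : Finset V} (hS : Minimal (IsTDom G) S) (hD : IsDom G D)
    (hDS : D ⊆ S) : S.card ≤ 2 * D.card := by
  classical
  have key := exists_inj hS hD hDS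
  choose! g hg using key
  have h1 : (S \ D).card ≤ D.card := by
    apply Finset.card_le_card_of_injOn g
    · intro u hu
      rw [Finset.mem_coe, Finset.mem_sdiff] at hu
      exact (hg u hu.1 hu.2).1
    · intro u hu v hv huv
      rw [Finset.mem_coe, Finset.mem_sdiff] at hu hv
      have h3 := (hg v hv.1 hv.2).2.2 u hu.1 (by rw [← huv]; exact (hg u hu.1 hu.2).2.1)
      exact h3
  have h2 := Finset.card_sdiff_add_card_eq_card hDS
  omega

lemma upperTDom_le (hG : ∀ v, ∃ u, G.Adj v u) : upperTDom G ≤ 2 * upperDom G := by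
  obtain ⟨S, hS, hcard⟩ := exists_upperTDom hG
  obtain ⟨D, hDS, hD⟩ := exists_minimal_sub (P := IsDom G) (tdom_dom hS.1)
  have h1 := card_le_two_mul hS hD.1 hDS
  have h2 := le_upperDom hD
  omega

/-- Forward direction. -/
lemma indMatching_of_eq {S : Finset V} (hS : Minimal (IsTDom G) S)
    (hcard : S.card = 2 * upperDom G) : IsIndMatching G S := by
  classical
  obtain ⟨D, hDS, hD⟩ := exists_minimal_sub (P := IsDom G) (tdom_dom hS.1)
  have h1 := card_le_two_mul hS hD.1 hDS
  have h2 := le_upperDom hD
  have hDcard : D.card = upperDom G := by omega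
  have key := exists_inj hS hD.1 hDS
  choose! g hg using key
  have hinj : Set.InjOn g (S \ D : Finset V) := by
    intro u hu v hv huv
    rw [Finset.mem_coe, Finset.mem_sdiff] at hu hv
    exact (hg v hv.1 hv.2).2.2 u hu.1 (by rw [← huv]; exact (hg u hu.1 hu.2).2.1)
  have hmaps : ∀ u ∈ S \ D, g u ∈ D := by
    intro u hu
    rw [Finset.mem_sdiff] at hu
    exact (hg u hu.1 hu.2).1
  have hsd := Finset.card_sdiff_add_card_eq_card hDS
  have himg : (S \ D).image g = D := by
    apply Finset.eq_of_subset_of_card_le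
    · intro x hx
      obtain ⟨u, hu, rfl⟩ := Finset.mem_image.1 hx
      exact hmaps u hu
    · rw [Finset.card_image_of_injOn hinj]; omega
  -- every `d ∈ D` has a unique neighbour in `S`, lying in `S \ D`
  have hpart : ∀ d ∈ D, ∃ u ∈ S, u ∉ D ∧ G.Adj u d ∧ ∀ x ∈ S, G.Adj x d → x = u := by
    intro d hd
    rw [← himg] at hd
    obtain ⟨u, hu, rfl⟩ := Finset.mem_image.1 hd
    rw [Finset.mem_sdiff] at hu
    exact ⟨u, hu.1, hu.2, (hg u hu.1 hu.2).2.1, (hg u hu.1 hu.2).2.2⟩
  have hDind : ∀ a ∈ D, ∀ b ∈ D, ¬ G.Adj a b := by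
    intro a ha b hb hab
    obtain ⟨u, _, huD, _, hu⟩ := hpart b hb
    exact huD (hu a (hDS ha) hab ▸ ha)
  -- the partner `u` of `d` has `d` as its only neighbour in `S`
  have hpart2 : ∀ d ∈ D, ∀ u ∈ S, u ∉ D → G.Adj u d → ∀ x ∈ S, G.Adj x u → x = d := by
    intro d hd u hu huD hud
    obtain ⟨w, hdw, hpriv⟩ := exists_priv hS (hDS hd)
    obtain ⟨u', hu', hu'D, hu'd, huniq⟩ := hpart d hd
    have huu : u = u' := huniq u hu hud
    subst huu
    by_cases hwS : w ∈ S
    · have : w = u := huniq w hwS hdw.symm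
      subst this
      exact hpriv
    · exfalso
      have hind : ∀ a ∈ insert w (insert u (D.erase d)), ∀ b ∈ insert w (insert u (D.erase d)),
          ¬ G.Adj a b := by
        have hwu : ¬ G.Adj w u := by
          intro h
          have h5 := hpriv u hu h.symm
          subst h5
          exact huD hd
        have hwD : ∀ x ∈ D.erase d, ¬ G.Adj w x := by
          intro x hx h
          rw [Finset.mem_erase] at hx
          exact hx.1 (hpriv x (hDS hx.2) h.symm)
        have huD' : ∀ x ∈ D.erase d, ¬ G.Adj u x := by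
          intro x hx h
          rw [Finset.mem_erase] at hx
          -- x ∈ D has unique nbr u'; it is u; so x = g u = d
          have hud2 : g u = d := by
            have h6 : d ∈ (S \ D).image g := by rw [himg]; exact hd
            obtain ⟨y, hy, hyd⟩ := Finset.mem_image.1 h6
            rw [Finset.mem_sdiff] at hy
            have h7 := (hg y hy.1 hy.2).2.2 u hu (by rw [hyd]; exact hud)
            rw [h7]; exact hyd
          have hux2 : g u = x := by
            have h6 : x ∈ (S \ D).image g := by rw [himg]; exact hx.2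
            obtain ⟨y, hy, hyd⟩ := Finset.mem_image.1 h6
            rw [Finset.mem_sdiff] at hy
            have h7 := (hg y hy.1 hy.2).2.2 u hu (by rw [hyd]; exact h)
            rw [h7]; exact hyd
          exact hx.1 (hux2.symm.trans hud2)
        intro a ha b hb hab
        simp only [Finset.mem_insert] at ha hb
        rcases ha with rfl | rfl | ha <;> rcases hb with rfl | rfl | hb
        · exact G.loopless.irrefl _ hab
        · exact hwu hab
        · exact hwD b hb hab
        · exact hwu hab.symm
        · exact G.loopless.irrefl _ hab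
        · exact huD' b hb hab
        · exact hwD a ha hab.symm
        · exact huD' a ha hab.symm
        · exact hDind a (Finset.mem_of_mem_erase ha) b (Finset.mem_of_mem_erase hb) hab
      have hle := indep_card_le hind
      have hc1 : (insert w (insert u (D.erase d))).card = D.card + 1 := by
        rw [Finset.card_insert_of_notMem, Finset.card_insert_of_notMem, Finset.card_erase_of_mem hd]
        · have : 0 < D.card := Finset.card_pos.2 ⟨d, hd⟩
          omega
        · intro h; exact huD (Finset.mem_of_mem_erase h)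
        · intro h
          rw [Finset.mem_insert] at h
          rcases h with rfl | h
          · exact hwS hu
          · exact hwS (hDS (Finset.mem_of_mem_erase h))
      omega
  intro v hv
  by_cases hvD : v ∈ D
  · obtain ⟨u, hu, _, hud, huniq⟩ := hpart v hvD
    exact ⟨u, ⟨hu, hud.symm⟩, fun y hy => huniq y hy.1 hy.2.symm⟩
  · have h8 := hg v hv hvD
    refine ⟨g v, ⟨hDS h8.1, h8.2.1⟩, ?_⟩
    intro y hy
    exact hpart2 (g v) h8.1 v hv hvD h8.2.1 y hy.1 hy.2.symm

end basics

section indm

variable [Fintype V]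

/-- An induced matching contains an independent set avoiding any prescribed set that does not
contain both ends of an edge of the matching, with half of the vertices. -/
lemma exists_transversal {S : Finset V} (hS : IsIndMatching G S) (N : Set V)
    (hN : ∀ x ∈ S, ∀ y ∈ S, G.Adj x y → x ∈ N → y ∉ N) :
    ∃ X ⊆ S, (∀ a ∈ X, ∀ b ∈ X, ¬ G.Adj a b) ∧ (∀ x ∈ X, x ∉ N) ∧ S.card ≤ 2 * X.card := by
  classical
  obtain ⟨Y, hY, hmax⟩ := Finset.exists_maximal
    (s := S.powerset.filter
      (fun Y => (∀ a ∈ Y, ∀ b ∈ Y, ¬ G.Adj a b) ∧ ∀ x ∈ Y, x ∉ N))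
    ⟨∅, by simp⟩
  simp only [Finset.mem_filter, Finset.mem_powerset] at hY hmax
  obtain ⟨hYS, hYind, hYN⟩ := hY
  refine ⟨Y, hYS, hYind, hYN, ?_⟩
  have hadd : ∀ x ∈ S, x ∉ N → x ∉ Y → ∃ y ∈ Y, G.Adj x y := by
    intro x hx hxN hxY
    by_contra hcon
    push Not at hcon
    have h1 : insert x Y ≤ Y := by
      apply hmax
      · refine ⟨Finset.insert_subset hx hYS, ?_, ?_⟩
        · intro a ha b hb
          rw [Finset.mem_insert] at ha hb
          rcases ha with rfl | ha <;> rcases hb with rfl | hb
          · exact G.loopless.irrefl _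
          · exact hcon b hb
          · intro h; exact hcon a ha h.symm
          · exact hYind a ha b hb
        · intro a ha
          rw [Finset.mem_insert] at ha
          rcases ha with rfl | ha
          · exact hxN
          · exact hYN a ha
      · exact Finset.subset_insert _ _
    exact hxY (h1 (Finset.mem_insert_self _ _))
  choose! m hm huniq using hS
  have hmem : ∀ x ∈ S, x ∉ Y → m x ∈ Y := by
    intro x hx hxY
    by_cases hxN : x ∈ N
    · have h2 := hN x hx (m x) (hm x hx).1 (hm x hx).2 hxN
      by_contra hmY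
      obtain ⟨y, hy, hxy⟩ := hadd (m x) (hm x hx).1 h2 hmY
      have h3 : y = x := by
        have h4 := huniq (m x) (hm x hx).1 y ⟨hYS hy, hxy⟩
        have h5 := huniq (m x) (hm x hx).1 x ⟨hx, (hm x hx).2.symm⟩
        exact h4.trans h5.symm
      subst h3
      exact hxY hy
    · obtain ⟨y, hy, hxy⟩ := hadd x hx hxN hxY
      have h4 := huniq x hx y ⟨hYS hy, hxy⟩
      rw [← h4]; exact hy
  have h1 : (S \ Y).card ≤ Y.card := by
    apply Finset.card_le_card_of_injOn m
    · intro u hu
      rw [Finset.mem_coe, Finset.mem_sdiff] at hu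
      exact hmem u hu.1 hu.2
    · intro u hu v hv huv
      rw [Finset.mem_coe, Finset.mem_sdiff] at hu hv
      have h2 := huniq (m v) (hm v hv.1).1 v ⟨hv.1, (hm v hv.1).2.symm⟩
      have h3 := huniq (m v) (hm v hv.1).1 u ⟨hu.1, by rw [← huv]; exact (hm u hu.1).2.symm⟩
      exact h3.trans h2.symm
  have h2 := Finset.card_sdiff_add_card_eq_card hYS
  omega

lemma minimal_tdom_of_indMatching {S : Finset V} (hS : IsIndMatching G S) (hD : IsDom G S) :
    Minimal (IsTDom G) S := by
  refine ⟨?_, ?_⟩
  · intro v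
    by_cases hv : v ∈ S
    · obtain ⟨u, hu, _⟩ := hS v hv
      exact ⟨u, hu⟩
    · exact hD v hv
  · intro T hT hTS v hv
    obtain ⟨u, hu, _⟩ := hS v hv
    obtain ⟨w, hw, huw⟩ := hT u
    obtain ⟨z, hz, hz2⟩ := hS u hu.1
    have h1 := hz2 w ⟨hTS hw, huw⟩
    have h2 := hz2 v ⟨hv, hu.2.symm⟩
    have h3 : v = w := h2.trans h1.symm
    rw [h3]; exact hw

end indm

section main

variable [Fintype V]

/-- Every vertex outside a dominating induced matching with `Γ(G)` edges is adjacent to both ends
of some edge of the matching. -/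
lemma both_ends {S : Finset V} (hS : IsIndMatching G S)
    (hcard : S.card = 2 * upperDom G) (v : V) (hv : v ∉ S) :
    ∃ x ∈ S, ∃ y ∈ S, G.Adj x y ∧ G.Adj v x ∧ G.Adj v y := by
  classical
  by_contra hcon
  push Not at hcon
  obtain ⟨X, hXS, hXind, hXN, hXc⟩ := exists_transversal hS {x | G.Adj v x}
    (fun x hx y hy hxy hvx => hcon x hx y hy hxy hvx)
  have hind : ∀ a ∈ insert v X, ∀ b ∈ insert v X, ¬ G.Adj a b := by
    intro a ha b hb
    rw [Finset.mem_insert] at ha hb
    rcases ha with rfl | ha <;> rcases hb with rfl | hb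
    · exact G.loopless.irrefl _
    · exact hXN b hb
    · intro h; exact hXN a ha h.symm
    · exact hXind a ha b hb
  have h1 := indep_card_le hind
  rw [Finset.card_insert_of_notMem (fun h => hv (hXS h))] at h1
  omega

lemma indepNum_eq {S : Finset V} (hS : IsIndMatching G S)
    (hcard : S.card = 2 * upperDom G) : G.indepNum = upperDom G := by
  classical
  apply le_antisymm
  · obtain ⟨T, hT⟩ := G.exists_isNIndepSet_indepNum
    rw [← hT.card_eq]
    apply indep_card_le
    intro a ha b hb hab
    exact hT.isIndepSet ha hb hab.ne hab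
  · obtain ⟨X, _, hXind, _, hXc⟩ := exists_transversal hS (∅ : Set V)
      (fun x hx y hy hxy hvx => by simp)
    have h1 : G.IsIndepSet (X : Set V) := by
      intro a ha b hb _
      exact hXind a ha b hb
    have h2 := h1.card_le_indepNum
    omega

theorem main (G : SimpleGraph V) (hG : ∀ v, ∃ u, G.Adj v u) :
    (upperTDom G = 2 * upperDom G ↔
      ∃ S : Finset V, IsIndMatching G S ∧ IsDom G S ∧ S.card = 2 * upperDom G) := by
  constructor
  · intro h
    obtain ⟨S, hS, hcard⟩ := exists_upperTDom hG
    exact ⟨S, indMatching_of_eq hS (by omega), tdom_dom hS.1, by omega⟩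
  · rintro ⟨S, hS, hD, hcard⟩
    have h1 := le_upperTDom (minimal_tdom_of_indMatching hS hD)
    have h2 := upperTDom_le hG
    omega

end main

end Pool.Agent.H168R2.UTD
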