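import Mathlib

/-! Upper domination and upper total domination of finite graphs. -/

namespace Pool.Agent.H168R2.UTD

variable {V : Type*}

/-- `S` is a dominating set of `G`: every vertex outside `S` has a neighbour in `S`. -/
def IsDom (G : SimpleGraph V) (S : Finset V) : Prop :=
  ∀ v, v ∉ S → ∃ u ∈ S, G.Adj v u

/-- `S` is a total dominating set of `G`: every vertex has a neighbour in `S`. -/
def IsTDom (G : SimpleGraph V) (S : Finset V) : Prop :=
  ∀ v, ∃ u ∈ S, G.Adj v u

/-- The upper domination number: the largest size of a minimal dominating set. -/
noncomputable def upperDom (G : SimpleGraph V) : ℕ :=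
  sSup {n | ∃ S : Finset V, Minimal (IsDom G) S ∧ S.card = n}

/-- The upper total domination number: the largest size of a minimal total dominating set. -/
noncomputable def upperTDom (G : SimpleGraph V) : ℕ :=
  sSup {n | ∃ S : Finset V, Minimal (IsTDom G) S ∧ S.card = n}

/-- `S` is the vertex set of an induced matching of `G`: every vertex of `S` has exactly one
neighbour in `S`. -/
def IsIndMatching (G : SimpleGraph V) (S : Finset V) : Prop :=
  ∀ v ∈ S, ∃! u, u ∈ S ∧ G.Adj v u

end Pool.Agent.H168R2.UTD
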